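import Mathlib

set_option autoImplicit false

namespace Pool.Agent.H626Z.KLike

open Set

universe u

/-- A continuum: a connected compact Hausdorff space. -/
def IsContinuum (X : Type*) [TopologicalSpace X] : Prop :=
  ConnectedSpace X ∧ CompactSpace X ∧ T2Space X

/-- `𝒰` is an open cover of the space `X`. -/
def IsOpenCov {X : Type*} [TopologicalSpace X] (𝒰 : Set (Set X)) : Prop :=
  (∀ U ∈ 𝒰, IsOpen U) ∧ ⋃₀ 𝒰 = univ

/-- Every member of `𝒱` lies in some member of `𝒰`. -/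
def Refines {X : Type*} (𝒱 𝒰 : Set (Set X)) : Prop :=
  ∀ V ∈ 𝒱, ∃ U ∈ 𝒰, V ⊆ U

/-- `f` is a `𝒰`-map: it is continuous and the preimages of the members of some open cover
of the target refine `𝒰`. -/
def IsUMap {X Y : Type*} [TopologicalSpace X] [TopologicalSpace Y] (𝒰 : Set (Set X))
    (f : X → Y) : Prop :=
  Continuous f ∧ ∃ 𝒱 : Set (Set Y), IsOpenCov 𝒱 ∧ Refines ((fun V => f ⁻¹' V) '' 𝒱) 𝒰

/-- The order of `𝒰` is at most `m`: every subfamily with a common point has at most `m`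
members. -/
def OrderLE {X : Type*} (𝒰 : Set (Set X)) (m : ℕ) : Prop :=
  ∀ ℱ ⊆ 𝒰, (⋂₀ ℱ).Nonempty → ℱ.encard ≤ m

/-- Covering dimension at most `m`: every open cover has an open refinement (a cover) of order
at most `m + 1`. -/
def DimLE (X : Type*) [TopologicalSpace X] (m : ℕ) : Prop :=
  ∀ 𝒰 : Set (Set X), IsOpenCov 𝒰 →
    ∃ 𝒱 : Set (Set X), IsOpenCov 𝒱 ∧ Refines 𝒱 𝒰 ∧ OrderLE 𝒱 (m + 1)

/-- `X` is `𝒦`-like: every open cover `𝒰` of `X` admits a `𝒰`-map onto a member of `𝒦`. -/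
def IsKLike (𝒦 : Set TopCat.{u}) (X : Type*) [TopologicalSpace X] : Prop :=
  ∀ 𝒰 : Set (Set X), IsOpenCov 𝒰 →
    ∃ K ∈ 𝒦, ∃ f : X → K, Function.Surjective f ∧ IsUMap 𝒰 f

/-- `X` is `n`-`𝒦`-like: every open cover `𝒰` of `X` with at most `n` members admits a
`𝒰`-map onto a member of `𝒦`. -/
def IsNKLike (n : ℕ) (𝒦 : Set TopCat.{u}) (X : Type*) [TopologicalSpace X] : Prop :=
  ∀ 𝒰 : Set (Set X), IsOpenCov 𝒰 → 𝒰.encard ≤ n →
    ∃ K ∈ 𝒦, ∃ f : X → K, Function.Surjective f ∧ IsUMap 𝒰 f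

end Pool.Agent.H626Z.KLike
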