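import Pool.Agent.H626Z.KLike.Defs

set_option autoImplicit false

namespace Pool.Agent.H626Z.KLike

open Set Topology Filter

universe u

/-- a continuous logarithm on a contractible space -/
lemma exists_log {K : Type*} [TopologicalSpace K] [ContractibleSpace K] (g : C(K, ℂ))
    (hg : ∀ y, g y ≠ 0) : ∃ L : C(K, ℂ), ∀ y, Complex.exp (L y) = g y := by
  let g' : C(K, {z : ℂ // z ≠ 0}) := ⟨fun y => ⟨g y, hg y⟩, by fun_prop⟩
  have hn : g'.Nullhomotopic := by
    simpa using (id_nullhomotopic K).comp_right g'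
  obtain ⟨c, ⟨H⟩⟩ := hn
  have cov := Complex.isCoveringMap_exp
  let H' : C(unitInterval × K, {z : ℂ // z ≠ 0}) := H.symm.toContinuousMap
  have H0 : ∀ a : K, H' (0, a) =
      (fun z : ℂ ↦ (⟨_, z.exp_ne_zero⟩ : {z : ℂ // z ≠ 0}))
        ((ContinuousMap.const K (Complex.log c.1)) a) := by
    intro a
    apply Subtype.ext
    simp [H', Complex.exp_log c.2]
  let Γ := cov.liftHomotopy H' (ContinuousMap.const K (Complex.log c.1)) H0
  have hΓ := cov.liftHomotopy_lifts H' (ContinuousMap.const K (Complex.log c.1)) H0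
  refine ⟨⟨fun y => Γ (1, y), by fun_prop⟩, fun y => ?_⟩
  have := congrArg Subtype.val (congrFun hΓ (1, y))
  simpa [H', g', Γ] using this

lemma osc_lt_pi {X : Type*} [TopologicalSpace X] [PreconnectedSpace X] (φ : X → ℝ)
    (hφ : Continuous φ) (hc : ∀ x, 0 < Real.cos (φ x)) (x x' : X) : |φ x - φ x'| < Real.pi := by
  have key : ∀ a b : X, φ b - φ a < Real.pi := by
    intro a b
    by_contra h
    push Not at h
    have hmem : φ a + Real.pi ∈ Icc (φ a) (φ b) := ⟨by linarith [Real.pi_pos], by linarith⟩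
    obtain ⟨c, hc'⟩ := intermediate_value_univ a b hφ hmem
    have h1 := hc c
    rw [hc', Real.cos_add_pi] at h1
    linarith [hc a]
  rw [abs_lt]
  constructor
  · linarith [key x x']
  · exact key x' x

/-- The circle trick. -/
lemma circle_trick {X K : Type*} [TopologicalSpace X] [PreconnectedSpace X] [TopologicalSpace K]
    [CompactSpace K] [T2Space K] [ContractibleSpace K] (f : X → K) (hf : Continuous f)
    (hs : Function.Surjective f) (ψ : X → ℝ) (hψ : Continuous ψ)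
    (H : ∀ y : K, ∃ V : Set K, IsOpen V ∧ y ∈ V ∧ ∃ c : ℂ, ∀ x, f x ∈ V →
      0 < (c * Complex.exp (-(ψ x * Complex.I))).re) :
    ∃ h : K → ℝ, Continuous h ∧
      ∀ x x', |(h (f x) - ψ x) - (h (f x') - ψ x')| < Real.pi := by
  let t : K → Set ℂ := fun y => {c | ∀ x, f x = y → 0 < (c * Complex.exp (-(ψ x * Complex.I))).re}
  have ht : ∀ y, Convex ℝ (t y) := by
    intro y a ha b hb p q hp hq hpq x hx
    have h1 := ha x hx
    have h2 := hb x hx
    have : ((p • a + q • b) * Complex.exp (-(ψ x * Complex.I))).re =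
        p * (a * Complex.exp (-(ψ x * Complex.I))).re +
          q * (b * Complex.exp (-(ψ x * Complex.I))).re := by
      simp only [add_mul, smul_mul_assoc, Complex.add_re, Complex.smul_re, smul_eq_mul]
    rw [this]
    rcases hp.eq_or_lt with rfl | hp'
    · have : q = 1 := by linarith
      subst this
      simpa using h2
    · have := mul_pos hp' h1
      have := mul_nonneg hq h2.le
      linarith
  obtain ⟨g, hg⟩ := exists_continuous_forall_mem_convex_of_local_const ht (by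
    intro y
    obtain ⟨V, hV, hy, c, hc⟩ := H y
    refine ⟨c, ?_⟩
    filter_upwards [hV.mem_nhds hy] with y' hy' x hx
    exact hc x (hx ▸ hy'))
  have hg0 : ∀ y, g y ≠ 0 := by
    intro y h0
    obtain ⟨x, rfl⟩ := hs y
    have := hg (f x) x rfl
    rw [h0] at this
    simp at this
  obtain ⟨L, hL⟩ := exists_log g hg0
  refine ⟨fun y => (L y).im, by fun_prop, ?_⟩
  apply osc_lt_pi (fun x => (L (f x)).im - ψ x) (by fun_prop)
  intro x
  have h1 := hg (f x) x rfl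
  rw [← hL, ← Complex.exp_add, Complex.exp_re] at h1
  have h2 := (pos_iff_pos_of_mul_pos h1).1 (Real.exp_pos _)
  simpa [sub_eq_add_neg] using h2

/-- one shrinking step -/
lemma shrink_step {X ι : Type*} [TopologicalSpace X] {k : ℕ}
    (P : ∀ 𝒰 : Set (Set X), IsOpenCov 𝒰 → 𝒰.encard ≤ (k + 2 : ℕ) →
      ∃ 𝒱 : Set (Set X), IsOpenCov 𝒱 ∧ Refines 𝒱 𝒰 ∧ OrderLE 𝒱 (k + 1))
    (W : ι → Set X) (hW : ∀ i, IsOpen (W i)) (hc : ∀ x, ∃ i, x ∈ W i)
    (S : Finset ι) (hS : S.card = k + 2) :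
    ∃ W' : ι → Set X, (∀ i, IsOpen (W' i)) ∧ (∀ x, ∃ i, x ∈ W' i) ∧ (∀ i, W' i ⊆ W i) ∧
      ∀ x, ∃ i ∈ S, x ∉ W' i := by
  classical
  obtain ⟨s₀, hs₀⟩ : S.Nonempty := Finset.card_pos.mp (by omega)
  let c : ι → ι := fun i => if i ∈ S then i else s₀
  have hcS : ∀ i, c i ∈ S := fun i => by
    simp only [c]; split_ifs with h
    · exact h
    · exact hs₀
  have hcs : ∀ i ∈ S, c i = i := fun i hi => by simp [c, hi]
  let G : ι → Set X := fun s => ⋃ i, ⋃ (_ : c i = s), W i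
  obtain ⟨𝒱, ⟨hVo, hVc⟩, hVr, hVord⟩ := P (G '' (S : Set ι)) ⟨by
      rintro _ ⟨s, -, rfl⟩
      exact isOpen_iUnion fun i => isOpen_iUnion fun _ => hW i, by
      apply eq_univ_of_forall
      intro x
      obtain ⟨i, hi⟩ := hc x
      exact ⟨G (c i), ⟨c i, hcS i, rfl⟩, mem_iUnion₂.2 ⟨i, rfl, hi⟩⟩⟩ (by
      refine (encard_image_le _ _).trans ?_
      rw [encard_coe_eq_coe_finsetCard, hS])
  have hlab : ∀ V ∈ 𝒱, ∃ s ∈ S, V ⊆ G s := by
    intro V hV
    obtain ⟨_, ⟨s, hs, rfl⟩, h⟩ := hVr V hV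
    exact ⟨s, hs, h⟩
  haveI : Nonempty ι := ⟨s₀⟩
  choose! lab hlabS hlabG using hlab
  refine ⟨fun i => W i ∩ ⋃ V ∈ 𝒱, ⋃ (_ : lab V = c i), V, ?_, ?_, fun i => inter_subset_left, ?_⟩
  · intro i
    exact (hW i).inter (isOpen_biUnion fun V hV => isOpen_iUnion fun _ => hVo V hV)
  · intro x
    have : x ∈ ⋃₀ 𝒱 := hVc ▸ mem_univ x
    obtain ⟨V, hV, hx⟩ := this
    obtain ⟨i, hi, hxi⟩ := mem_iUnion₂.1 (hlabG V hV hx)
    exact ⟨i, hxi, mem_iUnion₂.2 ⟨V, hV, mem_iUnion.2 ⟨hi.symm, hx⟩⟩⟩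
  · intro x
    by_contra h
    push Not at h
    have h' : ∀ s ∈ S, ∃ V ∈ 𝒱, lab V = s ∧ x ∈ V := by
      intro s hs
      obtain ⟨V, hV, hx⟩ := mem_iUnion₂.1 (h s hs).2
      obtain ⟨h1, h2⟩ := mem_iUnion.1 hx
      exact ⟨V, hV, h1.trans (hcs s hs), h2⟩
    choose! Vs hVs hlabVs hxVs using h'
    have hinj : InjOn Vs (S : Set ι) := by
      intro a ha b hb hab
      rw [← hlabVs a ha, ← hlabVs b hb, hab]
    have := hVord (Vs '' (S : Set ι)) (by rintro _ ⟨s, hs, rfl⟩; exact hVs s hs)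
      ⟨x, by rintro _ ⟨s, hs, rfl⟩; exact hxVs s hs⟩
    rw [hinj.encard_image, encard_coe_eq_coe_finsetCard, hS] at this
    have : k + 2 ≤ k + 1 := by exact_mod_cast this
    omega

lemma shrink_all {X ι : Type*} [TopologicalSpace X] [Fintype ι] {k : ℕ}
    (P : ∀ 𝒰 : Set (Set X), IsOpenCov 𝒰 → 𝒰.encard ≤ (k + 2 : ℕ) →
      ∃ 𝒱 : Set (Set X), IsOpenCov 𝒱 ∧ Refines 𝒱 𝒰 ∧ OrderLE 𝒱 (k + 1))
    (U : ι → Set X) (hU : ∀ i, IsOpen (U i)) (hc : ∀ x, ∃ i, x ∈ U i) :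
    ∃ W : ι → Set X, (∀ i, IsOpen (W i)) ∧ (∀ x, ∃ i, x ∈ W i) ∧ (∀ i, W i ⊆ U i) ∧
      ∀ x, ∀ S : Finset ι, (∀ i ∈ S, x ∈ W i) → S.card ≤ k + 1 := by
  classical
  have main : ∀ 𝒮 : Finset (Finset ι), (∀ S ∈ 𝒮, S.card = k + 2) →
      ∃ W : ι → Set X, (∀ i, IsOpen (W i)) ∧ (∀ x, ∃ i, x ∈ W i) ∧ (∀ i, W i ⊆ U i) ∧
        ∀ S ∈ 𝒮, ∀ x, ∃ i ∈ S, x ∉ W i := by
    intro 𝒮
    induction 𝒮 using Finset.induction_on with
    | empty => intro _; exact ⟨U, hU, hc, fun _ => Subset.rfl, by simp⟩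
    | insert S 𝒮 hS ih =>
      intro h
      obtain ⟨W, h1, h2, h3, h4⟩ := ih fun T hT => h T (Finset.mem_insert_of_mem hT)
      obtain ⟨W', g1, g2, g3, g4⟩ := shrink_step P W h1 h2 S (h S (Finset.mem_insert_self _ _))
      refine ⟨W', g1, g2, fun i => (g3 i).trans (h3 i), ?_⟩
      intro T hT x
      rcases Finset.mem_insert.1 hT with rfl | hT
      · exact g4 x
      · obtain ⟨i, hi, hx⟩ := h4 T hT x
        exact ⟨i, hi, fun h' => hx (g3 i h')⟩
  obtain ⟨W, h1, h2, h3, h4⟩ := main (Finset.powersetCard (k + 2) Finset.univ)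
    (fun S hS => (Finset.mem_powersetCard.1 hS).2)
  refine ⟨W, h1, h2, h3, fun x S hS => ?_⟩
  by_contra hlt
  obtain ⟨T, hTS, hT⟩ := Finset.exists_subset_card_eq (s := S) (n := k + 2) (by omega)
  obtain ⟨i, hi, hx⟩ := h4 T (Finset.mem_powersetCard.2 ⟨Finset.subset_univ _, hT⟩) x
  exact hx (hS i (hTS hi))

/-- vanishing moments -/
lemma moment_zero {ι : Type*} [Fintype ι] (t d : ι → ℝ) (ht : Function.Injective t) (N : ℕ)
    (T : Finset ι) (hT : T.card ≤ N + 1) (hd : ∀ j ∉ T, d j = 0)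
    (hm : ∀ c ≤ N, ∑ j, d j * t j ^ c = 0) (i : ι) : d i = 0 := by
  classical
  by_cases hi : i ∈ T
  swap
  · exact hd i hi
  let p : Polynomial ℝ := ∏ j ∈ T.erase i, (Polynomial.X - Polynomial.C (t j))
  have hdeg : p.natDegree < N + 1 := by
    have : p.natDegree = (T.erase i).card := by
      simp only [p]
      exact Polynomial.natDegree_finsetProd_X_sub_C_eq_card _ _
    rw [this, Finset.card_erase_of_mem hi]
    have : 0 < T.card := Finset.card_pos.2 ⟨i, hi⟩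
    omega
  have h1 : ∑ j, d j * p.eval (t j) = 0 := by
    simp_rw [Polynomial.eval_eq_sum_range' hdeg, Finset.mul_sum]
    rw [Finset.sum_comm]
    apply Finset.sum_eq_zero
    intro c hc
    have := hm c (by simpa [Nat.lt_succ_iff] using hc)
    calc ∑ j, d j * (p.coeff c * t j ^ c) = p.coeff c * ∑ j, d j * t j ^ c := by
          rw [Finset.mul_sum]; exact Finset.sum_congr rfl fun j _ => by ring
      _ = 0 := by rw [this, mul_zero]
  rw [Finset.sum_eq_single i] at h1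
  · refine (mul_eq_zero.1 h1).resolve_right ?_
    simp only [p, Polynomial.eval_prod, Polynomial.eval_sub, Polynomial.eval_X, Polynomial.eval_C]
    refine Finset.prod_ne_zero_iff.2 fun j hj => sub_ne_zero.2 fun h => ?_
    exact (Finset.mem_erase.1 hj).1 (ht h).symm
  · intro j _ hj
    by_cases hjT : j ∈ T
    · have : p.eval (t j) = 0 := by
        simp only [p, Polynomial.eval_prod, Polynomial.eval_sub, Polynomial.eval_X,
          Polynomial.eval_C]
        exact Finset.prod_eq_zero (Finset.mem_erase.2 ⟨hj, hjT⟩) (sub_self _)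
      rw [this, mul_zero]
    · rw [hd j hjT, zero_mul]
  · simp

/-- a map to `ℝ^(2k+1)` with uniformly small fibres -/
lemma exists_functions {X ι : Type*} [TopologicalSpace X] [CompactSpace X] [T2Space X]
    [Fintype ι] {k : ℕ} (W : ι → Set X) (hW : ∀ i, IsOpen (W i)) (hc : ∀ x, ∃ i, x ∈ W i)
    (hord : ∀ x, ∀ S : Finset ι, (∀ i ∈ S, x ∈ W i) → S.card ≤ k + 1) :
    ∃ ψ : Fin (2 * k + 1) → X → ℝ, (∀ c, Continuous (ψ c)) ∧
      ∀ x, ∃ i, ∀ x', (∀ c, |ψ c x' - ψ c x| < 5) → x' ∈ W i := by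
  classical
  obtain ⟨ρ, hρ⟩ := PartitionOfUnity.exists_isSubordinate isClosed_univ W hW
    (fun x _ => by simpa using hc x)
  have hsub : ∀ i x, ρ i x ≠ 0 → x ∈ W i := fun i x h => hρ i (subset_tsupport _ h)
  have hsum : ∀ x, ∑ i, ρ i x = 1 := fun x => by
    rw [← ρ.sum_eq_one (mem_univ x), finsum_eq_sum_of_fintype]
  let t : ι → ℝ := fun i => ((Fintype.equivFin ι i : ℕ) : ℝ)
  have ht : Function.Injective t := by
    intro a b h
    have : ((Fintype.equivFin ι a : ℕ)) = (Fintype.equivFin ι b : ℕ) := by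
      simp only [t] at h; exact_mod_cast h
    exact (Fintype.equivFin ι).injective (Fin.ext this)
  let F : X → (Fin (2 * k + 1) → ℝ) := fun x c => ∑ j, ρ j x * t j ^ ((c : ℕ) + 1)
  have hF : Continuous F := by
    refine continuous_pi fun c => continuous_finsetSum _ fun j _ => ?_
    exact (ρ j).continuous.mul continuous_const
  have hfib : ∀ x, ∃ i, ∀ x', F x' = F x → x' ∈ W i := by
    intro x
    obtain ⟨i, hi⟩ := ρ.exists_pos (mem_univ x)
    refine ⟨i, fun x' hx' => hsub i x' ?_⟩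
    have h1 := hord x (Finset.univ.filter fun j => ρ j x ≠ 0)
      (fun j hj => hsub j x (Finset.mem_filter.1 hj).2)
    have h2 := hord x' (Finset.univ.filter fun j => ρ j x' ≠ 0)
      (fun j hj => hsub j x' (Finset.mem_filter.1 hj).2)
    have := moment_zero t (fun j => ρ j x' - ρ j x) ht (2 * k + 1)
      ((Finset.univ.filter fun j => ρ j x ≠ 0) ∪ (Finset.univ.filter fun j => ρ j x' ≠ 0))
      ((Finset.card_union_le _ _).trans (by omega))
      (by
        intro j hj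
        simp only [Finset.mem_union, Finset.mem_filter, Finset.mem_univ, true_and, not_or,
          not_not] at hj
        rw [hj.1, hj.2, sub_self])
      (by
        intro c hc'
        simp_rw [sub_mul, Finset.sum_sub_distrib]
        rcases c with _ | c
        · simp [hsum]
        · have := congrFun hx' ⟨c, by omega⟩
          simp only [F] at this
          rw [this, sub_self]) i
    have h3 : ρ i x' = ρ i x := by linarith
    rw [h3]
    exact hi.ne'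
  have hball : ∀ x, ∃ i, ∃ ε > 0, ∀ x', F x' ∈ Metric.ball (F x) ε → x' ∈ W i := by
    intro x
    obtain ⟨i, hi⟩ := hfib x
    have hcl : IsClosed (F '' (W i)ᶜ) := ((hW i).isClosed_compl.isCompact.image hF).isClosed
    have hx : F x ∈ (F '' (W i)ᶜ)ᶜ := by
      rintro ⟨x', hx', h⟩
      exact hx' (hi x' h)
    obtain ⟨ε, hε, hb⟩ := Metric.isOpen_iff.1 hcl.isOpen_compl _ hx
    refine ⟨i, ε, hε, fun x' hx' => ?_⟩
    by_contra h
    exact hb hx' ⟨x', h, rfl⟩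
  choose idx ε hε hb using hball
  obtain ⟨δ, hδ, hleb⟩ := lebesgue_number_lemma_of_metric (isCompact_range hF)
    (c := fun x => Metric.ball (F x) (ε x)) (fun _ => Metric.isOpen_ball)
    (by rintro _ ⟨x, rfl⟩; exact mem_iUnion.2 ⟨x, Metric.mem_ball_self (hε x)⟩)
  refine ⟨fun c x => 5 / δ * F x c, fun c => by fun_prop, fun x => ?_⟩
  obtain ⟨x₀, hx₀⟩ := hleb (F x) ⟨x, rfl⟩
  refine ⟨idx x₀, fun x' hx' => hb x₀ x' (hx₀ ?_)⟩
  rw [Metric.mem_ball, dist_pi_lt_iff hδ]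
  intro c
  have := hx' c
  rw [← mul_sub, abs_mul, abs_of_pos (by positivity : 0 < 5 / δ), div_mul_eq_mul_div,
    div_lt_iff₀ hδ] at this
  rw [Real.dist_eq]
  linarith

/-- three half planes -/
noncomputable def dirn : Fin 3 → ℂ := ![1, -1 + Complex.I, -1 - Complex.I]

lemma exists_dirn (a : ℝ) : ∃ r, 0 < (dirn r * Complex.exp (-(a * Complex.I))).re := by
  by_contra h
  push Not at h
  have h0 := h 0
  have h1 := h 1
  have h2 := h 2
  have e : Complex.exp (-(a * Complex.I)) = Complex.exp (((-a : ℝ) : ℂ) * Complex.I) := by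
    push_cast; ring_nf
  rw [e] at h0 h1 h2
  simp only [dirn, Matrix.cons_val_zero, Matrix.cons_val_one, Matrix.cons_val_two,
    Matrix.tail_cons, Matrix.head_cons, Complex.mul_re, Complex.exp_ofReal_mul_I_re,
    Complex.exp_ofReal_mul_I_im, Complex.one_re, Complex.one_im, Complex.add_re, Complex.add_im,
    Complex.neg_re, Complex.neg_im, Complex.I_re, Complex.I_im, Complex.sub_re,
    Complex.sub_im] at h0 h1 h2
  have := Real.sin_sq_add_cos_sq (-a)
  have hc : Real.cos (-a) = 0 := by linarith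
  have hs : Real.sin (-a) = 0 := by linarith
  rw [hc, hs] at this
  norm_num at this

theorem main (k : ℕ) (𝒦 : Set TopCat.{u})
    (h𝒦 : ∀ K ∈ 𝒦, IsContinuum K ∧ ContractibleSpace K ∧ DimLE K k)
    (X : Type*) [TopologicalSpace X] (hX : IsContinuum X)
    (H : IsNKLike (3 ^ (2 * k + 1)) 𝒦 X) : IsKLike 𝒦 X := by
  classical
  obtain ⟨hconn, hcomp, hT2⟩ := hX
  have P : ∀ 𝒰 : Set (Set X), IsOpenCov 𝒰 → 𝒰.encard ≤ (k + 2 : ℕ) →
      ∃ 𝒱 : Set (Set X), IsOpenCov 𝒱 ∧ Refines 𝒱 𝒰 ∧ OrderLE 𝒱 (k + 1) := by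
    intro 𝒰 h𝒰 hcard
    have hle : k + 2 ≤ 3 ^ (2 * k + 1) := by
      have : 2 * k + 1 < 3 ^ (2 * k + 1) := Nat.lt_pow_self (by norm_num)
      omega
    obtain ⟨K, hK, f, hfs, hfc, 𝒱, h𝒱, hr⟩ := H 𝒰 h𝒰 (hcard.trans (by exact_mod_cast hle))
    obtain ⟨𝒲, ⟨hWo, hWc⟩, hWr, hWord⟩ := (h𝒦 K hK).2.2 𝒱 h𝒱
    refine ⟨(fun V => f ⁻¹' V) '' 𝒲, ⟨?_, ?_⟩, ?_, ?_⟩
    · rintro _ ⟨V, hV, rfl⟩
      exact (hWo V hV).preimage hfc
    · apply eq_univ_of_forall
      intro x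
      have : f x ∈ ⋃₀ 𝒲 := hWc ▸ mem_univ _
      obtain ⟨V, hV, hx⟩ := this
      exact ⟨_, ⟨V, hV, rfl⟩, hx⟩
    · rintro _ ⟨V, hV, rfl⟩
      obtain ⟨V', hV', hsub⟩ := hWr V hV
      obtain ⟨U, hU, hsub'⟩ := hr _ ⟨V', hV', rfl⟩
      exact ⟨U, hU, (preimage_mono hsub).trans hsub'⟩
    · intro ℱ hℱ hne
      obtain ⟨𝒢, h𝒢, rfl⟩ := subset_image_iff.1 hℱ
      obtain ⟨x, hx⟩ := hne
      refine (encard_image_le _ _).trans (hWord 𝒢 h𝒢 ⟨f x, fun V hV => ?_⟩)
      exact hx _ ⟨V, hV, rfl⟩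
  intro 𝒰 ⟨hUo, hUc⟩
  obtain ⟨T, hT⟩ := isCompact_univ.elim_finite_subcover (fun U : 𝒰 => (U : Set X))
    (fun U => hUo U U.2) (by rw [← sUnion_eq_iUnion, hUc])
  obtain ⟨W, hW1, hW2, hW3, hW4⟩ := shrink_all P (fun U : T => ((U : 𝒰) : Set X))
    (fun U => hUo _ U.1.2) (by
      intro x
      obtain ⟨U, hU, hx⟩ := mem_iUnion₂.1 (hT (mem_univ x))
      exact ⟨⟨U, hU⟩, hx⟩)
  obtain ⟨ψ, hψ, hψW⟩ := exists_functions W hW1 hW2 hW4
  let O : (Fin (2 * k + 1) → Fin 3) → Set X := fun r =>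
    {x | ∀ c, 0 < (dirn (r c) * Complex.exp (-(ψ c x * Complex.I))).re}
  obtain ⟨K, hK, f, hfs, hfc, 𝒱, ⟨hVo, hVc⟩, hr⟩ := H (range O) ⟨by
      rintro _ ⟨r, rfl⟩
      simp only [O, ofPred_forall]
      refine isOpen_iInter_of_finite fun c => isOpen_lt continuous_const ?_
      have := hψ c
      fun_prop, by
      apply eq_univ_of_forall
      intro x
      choose r hr using fun c => exists_dirn (ψ c x)
      exact ⟨O r, ⟨r, rfl⟩, hr⟩⟩ (by
      rw [← image_univ]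
      refine (encard_image_le _ _).trans ?_
      rw [encard_univ, ENat.card_eq_coe_fintype_card]
      simp)
  obtain ⟨⟨-, hKc, hKt⟩, hKcon, -⟩ := h𝒦 K hK
  have hh : ∀ c, ∃ h : K → ℝ, Continuous h ∧
      ∀ x x', |(h (f x) - ψ c x) - (h (f x') - ψ c x')| < Real.pi := by
    intro c
    apply circle_trick f hfc hfs (ψ c) (hψ c)
    intro y
    have : y ∈ ⋃₀ 𝒱 := hVc ▸ mem_univ _
    obtain ⟨V, hV, hy⟩ := this
    obtain ⟨_, ⟨r, rfl⟩, hsub⟩ := hr _ ⟨V, hV, rfl⟩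
    exact ⟨V, hVo V hV, hy, dirn (r c), fun x hx => hsub hx c⟩
  choose h hhc hh using hh
  refine ⟨K, hK, f, hfs, hfc, range (fun y : K => {y' | ∀ c, |h c y' - h c y| < 1}), ⟨?_, ?_⟩, ?_⟩
  · rintro _ ⟨y, rfl⟩
    simp only [ofPred_forall]
    refine isOpen_iInter_of_finite fun c => isOpen_lt ?_ continuous_const
    have := hhc c
    fun_prop
  · apply eq_univ_of_forall
    intro y
    exact ⟨_, ⟨y, rfl⟩, fun c => by simp⟩
  · rintro _ ⟨_, ⟨y, rfl⟩, rfl⟩
    obtain ⟨x, rfl⟩ := hfs y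
    obtain ⟨i, hi⟩ := hψW x
    refine ⟨_, i.1.2, fun x' hx' => hW3 i (hi x' fun c => ?_)⟩
    have h1 := hx' c
    have h2 := hh c x x'
    have h3 := Real.pi_lt_four
    rw [abs_lt] at h1 h2 ⊢
    constructor <;> linarith [h1.1, h1.2, h2.1, h2.2]

end Pool.Agent.H626Z.KLike
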